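import Pool.Agent.H25.OctGeo

set_option autoImplicit false

namespace Pool.Agent.Results.MP_a0a64f_co.Separate
open Pool.Agent.H25.Oct

/-- An affine plane `{y | n · y = c}` of `ℝ³`, with nonzero normal vector `n`. -/
structure Plane where
  n : Fin 3 → ℝ
  c : ℝ
  n_ne : n ≠ 0

/-- The point `y` lies on the plane. -/
def Plane.On (H : Plane) (y : Fin 3 → ℝ) : Prop := H.n ⬝ᵥ y = H.c

/-- The point `y` lies in the open half-space of sign `s` (`true` is `+`, `false` is `-`). -/
def Plane.Side (H : Plane) (s : Bool) (y : Fin 3 → ℝ) : Prop :=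
  if s then H.c < H.n ⬝ᵥ y else H.n ⬝ᵥ y < H.c

/-- No four points of `P` lie on a common plane. -/
def GeneralPosition (P : Finset (Fin 3 → ℝ)) : Prop :=
  ∀ Q ⊆ P, Q.card = 4 → ∀ H : Plane, ¬ ∀ y ∈ Q, H.On y

/-- No point of `P` lies on one of the three planes, and each of the eight sign patterns is the
pattern of exactly one point of `P`. -/
def Separates (H : Fin 3 → Plane) (P : Finset (Fin 3 → ℝ)) : Prop :=
  (∀ k, ∀ y ∈ P, ¬ (H k).On y) ∧
    ∀ s : Fin 3 → Bool, ∃! y, y ∈ P ∧ ∀ k, (H k).Side (s k) y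

lemma plane_of_sep (p : ℕ → Pt) (x : ℕ) (hx : Sep p x) (i j : Fin 8) (hi : x.testBit i = true)
    (hj : x.testBit j = false) : ∃ H : Plane, ∀ l : Fin 8, H.Side (x.testBit l) (p l) := by
  obtain ⟨h, ⟨n, c, hn⟩, hv⟩ := hx
  have hs : ∀ l : Fin 8, if x.testBit l then c < n ⬝ᵥ p l else n ⬝ᵥ p l < c := by
    intro l
    have := hv l
    rw [hn] at this
    generalize x.testBit l = s at this
    cases s <;> simp [val] at this ⊢ <;> linarith
  refine ⟨⟨n, c, ?_⟩, hs⟩
  rintro rfl
  have a := hs i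
  have b := hs j
  simp [hi, hj] at a b
  linarith

lemma side_ne {H : Plane} {s : Bool} {y : Fin 3 → ℝ} (h : H.Side s y) : ¬ H.On y := by
  intro e
  cases s <;> simp [Plane.Side, Plane.On] at h e <;> linarith

lemma side_uniq {H : Plane} {s t : Bool} {y : Fin 3 → ℝ} (h : H.Side s y) (k : H.Side t y) :
    s = t := by
  cases s <;> cases t <;> simp [Plane.Side] at h k ⊢ <;> linarith

theorem result (P : Finset (Fin 3 → ℝ)) (h8 : P.card = 8) (hP : GeneralPosition P) :
    ∃ H : Fin 3 → Plane, Separates H P := by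
  classical
  let e : Fin 8 ≃ P := (P.equivFinOfCardEq h8).symm
  let p : ℕ → Pt := fun i => if h : i < 8 then (e ⟨i, h⟩ : Fin 3 → ℝ) else 0
  have hp : ∀ i : Fin 8, p i = (e i : Fin 3 → ℝ) := fun i => by simp [p, i.2]
  have hmem : ∀ i < 8, p i ∈ P := fun i hi => by rw [hp ⟨i, hi⟩]; exact (e _).2
  have hinj : ∀ i < 8, ∀ j < 8, p i = p j → i = j := fun i hi j hj h => by
    rw [hp ⟨i, hi⟩, hp ⟨j, hj⟩] at h
    simpa using e.injective (Subtype.ext h)
  have nz : ∀ a b c d, a < b → b < c → c < d → d < 8 → det4 (p a) (p b) (p c) (p d) ≠ 0 := by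
    intro a b c d ab bc cd hd h0
    obtain ⟨n, hn, h1, h2, h3⟩ := plane_of_det _ _ _ _ h0
    refine hP {p a, p b, p c, p d} ?_ ?_ ⟨n, n ⬝ᵥ p a, hn⟩ ?_
    · intro y hy
      simp only [Finset.mem_insert, Finset.mem_singleton] at hy
      rcases hy with rfl | rfl | rfl | rfl <;> exact hmem _ (by omega)
    · have ne : ∀ i j, i < j → j < 8 → p i ≠ p j := fun i j h1 h2 h =>
        absurd (hinj i (by omega) j h2 h) (by omega)
      rw [Finset.card_eq_four]
      exact ⟨_, _, _, _, ne a b ab (by omega), ne a c (by omega) (by omega), ne a d (by omega) hd,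
        ne b c bc (by omega), ne b d (by omega) hd, ne c d cd hd, rfl⟩
    · intro y hy
      simp only [Finset.mem_insert, Finset.mem_singleton] at hy
      rcases hy with rfl | rfl | rfl | rfl
      · rfl
      · exact h1
      · exact h2
      · exact h3
  obtain ⟨x, y, z, hf, hx, hy, hz⟩ := exists_fact p nz
  have inj : Function.Injective (pat x y z) := fun i j => of_decide_eq_true hf i j
  have sur : Function.Surjective (pat x y z) :=
    ((Fintype.bijective_iff_injective_and_card _).2 ⟨inj, by simp⟩).2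
  obtain ⟨i, hi⟩ := sur (true, true, true)
  obtain ⟨j, hj⟩ := sur (false, false, false)
  simp only [pat, Prod.mk.injEq] at hi hj
  obtain ⟨H0, s0⟩ := plane_of_sep p x hx i j hi.1 hj.1
  obtain ⟨H1, s1⟩ := plane_of_sep p y hy i j hi.2.1 hj.2.1
  obtain ⟨H2, s2⟩ := plane_of_sep p z hz i j hi.2.2 hj.2.2
  have hall : ∀ q ∈ P, ∃ l : Fin 8, p l = q := fun q hq =>
    ⟨e.symm ⟨q, hq⟩, by rw [hp]; simp⟩
  refine ⟨![H0, H1, H2], ?_, ?_⟩
  · intro k q hq
    obtain ⟨l, rfl⟩ := hall q hq
    fin_cases k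
    · exact side_ne (s0 l)
    · exact side_ne (s1 l)
    · exact side_ne (s2 l)
  · intro s
    obtain ⟨l, hl⟩ := sur (s 0, s 1, s 2)
    have hl' := hl
    simp only [pat, Prod.mk.injEq] at hl'
    refine ⟨p l, ⟨hmem _ l.2, fun k => ?_⟩, ?_⟩
    · fin_cases k
      · have := s0 l; rw [hl'.1] at this; exact this
      · have := s1 l; rw [hl'.2.1] at this; exact this
      · have := s2 l; rw [hl'.2.2] at this; exact this
    · rintro q ⟨hq, hs⟩
      obtain ⟨m, rfl⟩ := hall q hq
      have : pat x y z m = pat x y z l := by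
        rw [hl]
        simp only [pat, Prod.mk.injEq]
        exact ⟨side_uniq (s0 m) (hs 0), side_uniq (s1 m) (hs 1), side_uniq (s2 m) (hs 2)⟩
      rw [inj this]

end Pool.Agent.Results.MP_a0a64f_co.Separate
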